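import Pool.Agent.PJC.Defs

/-!
# Squad PJC: expectations (proved, cite freely)
-/

set_option autoImplicit false

namespace Pool.Agent.PJC

variable {n : ℕ}

/-- Cauchy-Schwarz with weights. -/
lemma wcs {Ω : Type} [Fintype Ω] (W F G : Ω → ℝ) (h : ∀ x, 0 ≤ W x) :
    (∑ x, W x * (F x * G x)) ^ 2 ≤ (∑ x, W x * F x ^ 2) * ∑ x, W x * G x ^ 2 := by
  have := Finset.sum_mul_sq_le_sq_mul_sq Finset.univ (fun x => √(W x) * F x)
    (fun x => √(W x) * G x)
  have e1 : ∑ x, √(W x) * F x * (√(W x) * G x) = ∑ x, W x * (F x * G x) := by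
    refine Finset.sum_congr rfl fun x _ => ?_
    have := Real.mul_self_sqrt (h x)
    linear_combination (F x * G x) * this
  have e2 : ∀ H : Ω → ℝ, ∑ x, (√(W x) * H x) ^ 2 = ∑ x, W x * H x ^ 2 := by
    intro H
    refine Finset.sum_congr rfl fun x _ => ?_
    have := Real.sq_sqrt (h x)
    linear_combination (H x ^ 2) * this
  rwa [e1, e2, e2] at this

/-- Weights of a side. -/
structure Side.Wt (s : Side n) : Prop where
  mu0 : ∀ a, 0 ≤ s.μ a
  mu1 : ∑ a, s.μ a = 1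
  w0 : ∀ a i, 0 ≤ s.w a i
  w1 : ∀ a, ∑ i, s.w a i = 1

lemma Side.Good.wt {s : Side n} {S : Set (Eu n)} {ε d : ℝ} (h : s.Good S ε d) : s.Wt :=
  ⟨h.mu0, h.mu1, h.w0, h.w1⟩

/-- The joint weight of a transition. -/
noncomputable def Side.W (s : Side n) (x : s.A × s.I) : ℝ := s.μ x.1 * s.w x.1 x.2

lemma Side.Wt.W0 {s : Side n} (h : s.Wt) (x : s.A × s.I) : 0 ≤ s.W x :=
  mul_nonneg (h.mu0 _) (h.w0 _ _)

lemma Side.ex_eq (s : Side n) (F : s.A → s.I → ℝ) :
    s.ex F = ∑ x : s.A × s.I, s.W x * F x.1 x.2 := by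
  rw [Fintype.sum_prod_type]
  unfold Side.ex Side.W
  refine Finset.sum_congr rfl fun a _ => ?_
  rw [Finset.mul_sum]
  refine Finset.sum_congr rfl fun i _ => ?_
  ring

lemma Side.ex_left (s : Side n) (h : s.Wt) (F : s.A → ℝ) :
    s.ex (fun a _ => F a) = ∑ a, s.μ a * F a := by
  unfold Side.ex
  refine Finset.sum_congr rfl fun a _ => ?_
  rw [← Finset.sum_mul, h.w1, one_mul]

lemma Side.ex_const (s : Side n) (h : s.Wt) (c : ℝ) : s.ex (fun _ _ => c) = c := by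
  rw [s.ex_left h (fun _ => c), ← Finset.sum_mul, h.mu1, one_mul]

lemma Side.ex_add (s : Side n) (F G : s.A → s.I → ℝ) :
    s.ex (fun a i => F a i + G a i) = s.ex F + s.ex G := by
  simp only [Side.ex_eq, mul_add, Finset.sum_add_distrib]

lemma Side.ex_sub (s : Side n) (F G : s.A → s.I → ℝ) :
    s.ex (fun a i => F a i - G a i) = s.ex F - s.ex G := by
  simp only [Side.ex_eq, mul_sub, Finset.sum_sub_distrib]

lemma Side.ex_mul_left (s : Side n) (c : ℝ) (F : s.A → s.I → ℝ) :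
    s.ex (fun a i => c * F a i) = c * s.ex F := by
  simp only [Side.ex_eq, Finset.mul_sum]
  refine Finset.sum_congr rfl fun x _ => ?_
  ring

lemma Side.ex_mono (s : Side n) (h : s.Wt) {F G : s.A → s.I → ℝ}
    (hFG : ∀ a i, F a i ≤ G a i) : s.ex F ≤ s.ex G := by
  simp only [Side.ex_eq]
  exact Finset.sum_le_sum fun x _ => mul_le_mul_of_nonneg_left (hFG _ _) (h.W0 x)

lemma Side.ex_nonneg (s : Side n) (h : s.Wt) {F : s.A → s.I → ℝ}
    (hF : ∀ a i, 0 ≤ F a i) : 0 ≤ s.ex F := by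
  have := s.ex_mono h hF
  rwa [s.ex_const h] at this

lemma Side.ex_abs (s : Side n) (h : s.Wt) (F : s.A → s.I → ℝ) :
    |s.ex F| ≤ s.ex (fun a i => |F a i|) := by
  simp only [Side.ex_eq]
  refine (Finset.abs_sum_le_sum_abs _ _).trans (le_of_eq ?_)
  refine Finset.sum_congr rfl fun x _ => ?_
  rw [abs_mul, abs_of_nonneg (h.W0 x)]

lemma Side.ex_cs (s : Side n) (h : s.Wt) (F G : s.A → s.I → ℝ) :
    s.ex (fun a i => F a i * G a i) ^ 2 ≤
      s.ex (fun a i => F a i ^ 2) * s.ex (fun a i => G a i ^ 2) := by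
  simp only [Side.ex_eq]
  exact wcs s.W (fun x => F x.1 x.2) (fun x => G x.1 x.2) h.W0

lemma Side.ex_sq (s : Side n) (h : s.Wt) (F : s.A → s.I → ℝ) :
    s.ex F ^ 2 ≤ s.ex (fun a i => F a i ^ 2) := by
  have := s.ex_cs h F (fun _ _ => 1)
  simpa [s.ex_const h] using this

lemma Side.ex_cs' (s : Side n) (h : s.Wt) (F G : s.A → s.I → ℝ) :
    |s.ex (fun a i => F a i * G a i)| ≤
      √(s.ex (fun a i => F a i ^ 2)) * √(s.ex (fun a i => G a i ^ 2)) := by
  rw [← Real.sqrt_mul (s.ex_nonneg h fun a i => sq_nonneg _), ← Real.sqrt_sq_eq_abs]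
  exact Real.sqrt_le_sqrt (s.ex_cs h F G)

lemma ex2_eq (s r : Side n) (F : s.A → s.I → r.A → r.I → ℝ) :
    ex2 s r F = ∑ z : (s.A × s.I) × (r.A × r.I),
      (s.W z.1 * r.W z.2) * F z.1.1 z.1.2 z.2.1 z.2.2 := by
  rw [Fintype.sum_prod_type]
  unfold ex2
  rw [Side.ex_eq]
  refine Finset.sum_congr rfl fun x _ => ?_
  rw [Side.ex_eq, Finset.mul_sum]
  refine Finset.sum_congr rfl fun y _ => ?_
  ring

lemma ex2_comm (s r : Side n) (F : s.A → s.I → r.A → r.I → ℝ) :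
    ex2 s r F = r.ex fun b j => s.ex fun a i => F a i b j := by
  rw [ex2_eq, Fintype.sum_prod_type, Finset.sum_comm, Side.ex_eq]
  refine Finset.sum_congr rfl fun y _ => ?_
  rw [Side.ex_eq, Finset.mul_sum]
  refine Finset.sum_congr rfl fun x _ => ?_
  ring

lemma ex2_const (s r : Side n) (hs : s.Wt) (hr : r.Wt) (c : ℝ) :
    ex2 s r (fun _ _ _ _ => c) = c := by
  unfold ex2
  simp only [r.ex_const hr, s.ex_const hs]

lemma ex2_left (s r : Side n) (hr : r.Wt) (F : s.A → s.I → ℝ) :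
    ex2 s r (fun a i _ _ => F a i) = s.ex F := by
  unfold ex2
  simp only [r.ex_const hr]

lemma ex2_right (s r : Side n) (hs : s.Wt) (F : r.A → r.I → ℝ) :
    ex2 s r (fun _ _ b j => F b j) = r.ex F := by
  unfold ex2
  simp only [s.ex_const hs]

lemma ex2_add (s r : Side n) (F G : s.A → s.I → r.A → r.I → ℝ) :
    ex2 s r (fun a i b j => F a i b j + G a i b j) = ex2 s r F + ex2 s r G := by
  simp only [ex2_eq, mul_add, Finset.sum_add_distrib]

lemma ex2_sub (s r : Side n) (F G : s.A → s.I → r.A → r.I → ℝ) :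
    ex2 s r (fun a i b j => F a i b j - G a i b j) = ex2 s r F - ex2 s r G := by
  simp only [ex2_eq, mul_sub, Finset.sum_sub_distrib]

lemma ex2_mul_left (s r : Side n) (c : ℝ) (F : s.A → s.I → r.A → r.I → ℝ) :
    ex2 s r (fun a i b j => c * F a i b j) = c * ex2 s r F := by
  simp only [ex2_eq, Finset.mul_sum]
  refine Finset.sum_congr rfl fun x _ => ?_
  ring

lemma ex2_W0 {s r : Side n} (hs : s.Wt) (hr : r.Wt) (z : (s.A × s.I) × (r.A × r.I)) :
    0 ≤ s.W z.1 * r.W z.2 := mul_nonneg (hs.W0 _) (hr.W0 _)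

lemma ex2_mono (s r : Side n) (hs : s.Wt) (hr : r.Wt) {F G : s.A → s.I → r.A → r.I → ℝ}
    (h : ∀ a i b j, F a i b j ≤ G a i b j) : ex2 s r F ≤ ex2 s r G := by
  simp only [ex2_eq]
  exact Finset.sum_le_sum fun z _ => mul_le_mul_of_nonneg_left (h _ _ _ _) (ex2_W0 hs hr z)

lemma ex2_nonneg (s r : Side n) (hs : s.Wt) (hr : r.Wt) {F : s.A → s.I → r.A → r.I → ℝ}
    (h : ∀ a i b j, 0 ≤ F a i b j) : 0 ≤ ex2 s r F := by
  have := ex2_mono s r hs hr h
  rwa [ex2_const s r hs hr] at this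

lemma ex2_abs (s r : Side n) (hs : s.Wt) (hr : r.Wt) (F : s.A → s.I → r.A → r.I → ℝ) :
    |ex2 s r F| ≤ ex2 s r (fun a i b j => |F a i b j|) := by
  simp only [ex2_eq]
  refine (Finset.abs_sum_le_sum_abs _ _).trans (le_of_eq ?_)
  refine Finset.sum_congr rfl fun z _ => ?_
  rw [abs_mul, abs_of_nonneg (ex2_W0 hs hr z)]

lemma ex2_cs (s r : Side n) (hs : s.Wt) (hr : r.Wt) (F G : s.A → s.I → r.A → r.I → ℝ) :
    ex2 s r (fun a i b j => F a i b j * G a i b j) ^ 2 ≤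
      ex2 s r (fun a i b j => F a i b j ^ 2) * ex2 s r (fun a i b j => G a i b j ^ 2) := by
  simp only [ex2_eq]
  exact wcs (fun z : (s.A × s.I) × (r.A × r.I) => s.W z.1 * r.W z.2)
    (fun z => F z.1.1 z.1.2 z.2.1 z.2.2) (fun z => G z.1.1 z.1.2 z.2.1 z.2.2) (ex2_W0 hs hr)

lemma ex2_sq (s r : Side n) (hs : s.Wt) (hr : r.Wt) (F : s.A → s.I → r.A → r.I → ℝ) :
    ex2 s r F ^ 2 ≤ ex2 s r (fun a i b j => F a i b j ^ 2) := by
  have := ex2_cs s r hs hr F (fun _ _ _ _ => 1)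
  simpa [ex2_const s r hs hr] using this

lemma ex2_cs' (s r : Side n) (hs : s.Wt) (hr : r.Wt) (F G : s.A → s.I → r.A → r.I → ℝ) :
    |ex2 s r (fun a i b j => F a i b j * G a i b j)| ≤
      √(ex2 s r (fun a i b j => F a i b j ^ 2)) * √(ex2 s r (fun a i b j => G a i b j ^ 2)) := by
  rw [← Real.sqrt_mul (ex2_nonneg s r hs hr fun a i b j => sq_nonneg _), ← Real.sqrt_sq_eq_abs]
  exact Real.sqrt_le_sqrt (ex2_cs s r hs hr F G)

lemma V_sub (s : Side n) (a : s.A) (i : s.I) : s.t a - s.t' a i = (2 : ℝ) • s.V a i := by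
  unfold Side.V
  rw [smul_smul]
  norm_num

end Pool.Agent.PJC
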