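import Mathlib
import Pool.Agent.Helper18_Proj.Defs

/-!
# Squad PJC (MP_ca8ef3_an): `ρ_n ≤ 2 - (2 + c)/n` for all `n ≥ 4` - definitions

All laws are finite weighted families. A *side* is a finite family of states `t a` with weights
`μ a`, for each state a finite law of transitions `t a → t' a i` (weight `w a i`) with test points
`v a i`. The move is `V a i = (t a - t' a i)/2`.
-/

set_option autoImplicit false

namespace Pool.Agent.PJC

/-- Euclidean space. -/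
abbrev Eu (n : ℕ) : Type := EuclideanSpace ℝ (Fin n)

/-- `p` and `q` are norms in duality with respect to the scalar product. -/
structure IsDual {n : ℕ} (p q : Seminorm ℝ (Eu n)) : Prop where
  le : ∀ f v : Eu n, inner ℝ f v ≤ q f * p v
  exP : ∀ f : Eu n, ∃ v : Eu n, p v ≤ 1 ∧ inner ℝ f v = q f
  exQ : ∀ v : Eu n, ∃ f : Eu n, q f ≤ 1 ∧ inner ℝ f v = p v

/-- Every projection `x ↦ x - ⟨f, x⟩ z` with `⟨f, z⟩ = 1` has norm at least `2 - ε`. -/
def Bad {n : ℕ} (ε : ℝ) (p q : Seminorm ℝ (Eu n)) : Prop :=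
  ∀ f z : Eu n, inner ℝ f z = 1 → ∃ g y : Eu n, q g ≤ 1 ∧ p y ≤ 1 ∧
    2 - ε ≤ inner ℝ g y - inner ℝ f y * inner ℝ g z

/-- The (unweighted) law of row `KER` at a state `t`. -/
structure IsKer {n : ℕ} (p q : Seminorm ℝ (Eu n)) (ε : ℝ) (t : Eu n) {I : Type} [Fintype I]
    (w : I → ℝ) (g y : I → Eu n) (s : ℝ) : Prop where
  w0 : ∀ i, 0 ≤ w i
  w1 : ∑ i, w i = 1
  st : ∀ i, q (g i) = 1
  pt : ∀ i, p (y i) ≤ 1
  mean : ∑ i, (w i * inner ℝ t (y i)) • g i = (-s) • t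
  bud : 2 - ε ≤ ∑ i, w i * inner ℝ (g i) (y i) + s

/-- The law of transitions at a state `t` (row `REW`). -/
structure IsLaw {n : ℕ} (p q : Seminorm ℝ (Eu n)) (ε : ℝ) (t : Eu n) {I : Type} [Fintype I]
    (w : I → ℝ) (t' v : I → Eu n) (e k : ℝ) : Prop where
  w0 : ∀ i, 0 ≤ w i
  w1 : ∑ i, w i = 1
  st : ∀ i, q (t' i) = 1
  pt : ∀ i, p (v i) ≤ 1
  mean : ∑ i, w i • t' i = (1 - e) • t
  e0 : 0 ≤ e
  k0 : 0 ≤ k
  k1 : k ≤ 1
  e3 : ∑ i, w i * (1 - inner ℝ t (v i)) ≤ k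
  bud : k + (1 - k) * (∑ i, w i * (1 + inner ℝ (t' i) (v i)) + e) ≤ ε

/-- A finite weighted family of states and transitions. -/
structure Side (n : ℕ) where
  /-- the states -/
  A : Type
  /-- the transitions -/
  I : Type
  [fA : Fintype A]
  [fI : Fintype I]
  /-- weights of the states -/
  μ : A → ℝ
  /-- weights of the transitions -/
  w : A → I → ℝ
  /-- the states -/
  t : A → Eu n
  /-- the targets -/
  t' : A → I → Eu n
  /-- the test points -/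
  v : A → I → Eu n
  /-- rate -/
  e : A → ℝ
  /-- deficit -/
  k : A → ℝ

attribute [instance] Side.fA Side.fI

variable {n : ℕ}

/-- The move of a transition. -/
noncomputable def Side.V (s : Side n) (a : s.A) (i : s.I) : Eu n :=
  (1 / 2 : ℝ) • (s.t a - s.t' a i)

/-- Expectation over the transitions of a side. -/
noncomputable def Side.ex (s : Side n) (F : s.A → s.I → ℝ) : ℝ :=
  ∑ a, s.μ a * ∑ i, s.w a i * F a i

/-- Expectation over two independent transitions, one of each side. -/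
noncomputable def ex2 (s r : Side n) (F : s.A → s.I → r.A → r.I → ℝ) : ℝ :=
  s.ex fun a i => r.ex fun b j => F a i b j

/-- The properties of a side. `S` is the set of states. -/
structure Side.Good (s : Side n) (S : Set (Eu n)) (ε d : ℝ) : Prop where
  mu0 : ∀ a, 0 ≤ s.μ a
  mu1 : ∑ a, s.μ a = 1
  w0 : ∀ a i, 0 ≤ s.w a i
  w1 : ∀ a, ∑ i, s.w a i = 1
  tS : ∀ a, s.t a ∈ S
  tS' : ∀ a i, s.t' a i ∈ S
  mean : ∀ a, ∑ i, s.w a i • s.t' a i = (1 - s.e a) • s.t a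
  e0 : ∀ a, 0 ≤ s.e a
  k0 : ∀ a, 0 ≤ s.k a
  k1 : ∀ a, s.k a ≤ 1
  e3 : ∀ a, ∑ i, s.w a i * (1 - inner ℝ (s.t a) (s.v a i)) ≤ s.k a
  bud : ∀ a, s.k a + (1 - s.k a) *
    (∑ i, s.w a i * (1 + inner ℝ (s.t' a i) (s.v a i)) + s.e a) ≤ ε
  pol : ∀ x ∈ S, ∀ a i, |inner ℝ x (s.v a i)| ≤ 1
  lenS : ∀ x ∈ S, ‖x‖ ≤ √n
  lenV : ∀ a i, ‖s.v a i‖ ≤ 1
  stat : ∀ f : Eu n → ℝ, (∀ x ∈ S, |f x| ≤ 1) →
    |∑ a, s.μ a * (∑ i, s.w a i * f (s.t' a i) - f (s.t a))| ≤ d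

/-- The relation between the two sides. -/
structure Cross (s r : Side n) (S R : Set (Eu n)) : Prop where
  st : ∀ x ∈ S, ∀ z ∈ R, |inner ℝ x z| ≤ √n
  pt : ∀ a i b j, |inner ℝ (s.v a i) (r.v b j)| ≤ 1 / √n

/-- The function `y = t(z)`. -/
noncomputable def yy (s r : Side n) (a : s.A) (b : r.A) : ℝ := inner ℝ (s.t a) (r.t b) / √n

/-- The function `X = V(z)`. -/
noncomputable def XX (s r : Side n) (a : s.A) (i : s.I) (b : r.A) : ℝ :=
  inner ℝ (s.V a i) (r.t b) / √n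

/-- The function `A`. -/
noncomputable def AA (s r : Side n) (a : s.A) (i : s.I) (b : r.A) (j : r.I) : ℝ :=
  √n * inner ℝ (s.v a i) (r.v b j)

/-- The function `B`. -/
noncomputable def BB (s r : Side n) (a : s.A) (i : s.I) (b : r.A) (j : r.I) : ℝ :=
  √n * inner ℝ (s.V a i) (r.V b j)

/-- The truncated function `A₁`. -/
noncomputable def A1 (s r : Side n) (R : s.A → Eu n →ₗ[ℝ] Eu n) (Q : r.A → Eu n →ₗ[ℝ] Eu n)
    (a : s.A) (i : s.I) (b : r.A) (j : r.I) : ℝ :=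
  √n * inner ℝ (R a (s.v a i)) (Q b (r.v b j))

/-- `R` is a family of truncating projections at the level `L`. -/
structure Trunc (s : Side n) (R : s.A → Eu n →ₗ[ℝ] Eu n) (L : ℝ) : Prop where
  al : ∀ a x, ∑ i, s.w a i * inner ℝ (R a (s.v a i)) x ^ 2 ≤ L * ‖x‖ ^ 2
  be : ∀ a x y, ∑ i, s.w a i * (inner ℝ (s.v a i) x * inner ℝ (R a (s.v a i)) y) =
    ∑ i, s.w a i * (inner ℝ (R a (s.v a i)) x * inner ℝ (R a (s.v a i)) y)

end Pool.Agent.PJC
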