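import Pool.Agent.PJC.Basic

/-!
# Squad PJC (MP_ca8ef3_an): statements of the rows

Theorem: `ρ_n ≤ 2 - (2 + 10^(-120))/n` for all `n ≥ 4`. Whole proof: notes 3153 and following of
helper5. Constants: `η` small, `a = η^4`, `ε = (2 + η^4)/n`, `0 ≤ d ≤ η^4/n^3`.
A row is a theorem `Pool.Agent.PJC.HNN.xxx : XxxStmt` (with the statements in the column `uses` as
hypotheses). The lemmas of `Basic.lean` (`ex_add`, `ex2_cs`, `ex2_comm`, ...) may be cited.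
-/

set_option autoImplicit false

namespace Pool.Agent.PJC

/-! ## Part 1: from normed spaces to sides -/

/-- HUL. The convex hull of a compact set in finite dimension is compact. Proof: Caratheodory
(`convexHull_eq_union`, or `eq_pos_convex_span_of_mem_convexHull`): every point of the hull is a
convex combination of `finrank + 1` points of `s` (pad with zero weights), so the hull is the image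
of the compact set `stdSimplex ℝ (Fin (d+1)) ×ˢ (Set.univ.pi fun _ => s)` under the continuous map
`(w, x) ↦ ∑ i, w i • x i`. -/
def HulStmt : Prop :=
  ∀ (F : Type) [NormedAddCommGroup F] [NormedSpace ℝ F] [FiniteDimensional ℝ F] (s : Set F),
    IsCompact s → IsCompact (convexHull ℝ s)

/-- KER (uses HUL). Proof: in `ℝ × Eu n` let `C` be the convex hull of the compact set of the points
`(⟨g, y⟩, ⟨t, y⟩ • g)`, `q g = 1`, `p y ≤ 1` (seminorms on `Eu n` are continuous; compactness from the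
lower bounds `c ‖v‖ ≤ p v`, `c ‖f‖ ≤ q f`), and let `G = {(r, -s • t) : 2 - ε ≤ r + s}`, convex and
closed (`t ≠ 0`). Suppose `C ∩ G = ∅` and separate strictly (`geometric_hahn_banach_compact_closed`):
`c' r + ⟨u, x⟩ < β` on `C`, `> β` on `G`. On `G` the functional is `c' r - s ⟨t, x⟩`, bounded below on
`r + s ≥ 2 - ε`; moving along `(r, s) = (ρ, 2 - ε - ρ)`, `ρ → ±∞`, gives `c' = -⟨t, x⟩`, and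
`(ρ, 0)`, `ρ → ∞`, gives `c' ≥ 0`. `C` contains `(0, 0)` (`y = 0`; some `g` with `q g = 1` exists:
`g = t`), so `0 < β < c' (2 - ε)` and `c' > 0`. With `z = -x/c'`: `⟨t, z⟩ = 1` and
`⟨g, y⟩ - ⟨t, y⟩ ⟨g, z⟩ < 2 - ε` for all `q g = 1`, `p y ≤ 1`. But `Bad ε p q` at `f = t`, `z` gives
`g, y` with `q g ≤ 1`, `p y ≤ 1` and value `≥ 2 - ε > 0`, so `q g > 0` and `g/q g` has value at least
as large: contradiction. A point of `C ∩ G` is a finite convex combination (`convexHull_eq`, or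
`mem_convexHull_iff_exists_fintype` or similar), reindex by `Fin N`. -/
def KerStmt : Prop :=
  ∀ (n : ℕ) (p q : Seminorm ℝ (Eu n)) (c ε : ℝ), 0 < c → (∀ v, c * ‖v‖ ≤ p v) →
    (∀ f, c * ‖f‖ ≤ q f) → IsDual p q → 0 < ε → ε < 1 → Bad ε p q → ∀ t, q t = 1 →
    ∃ (N : ℕ) (w : Fin N → ℝ) (g y : Fin N → Eu n) (s : ℝ), IsKer p q ε t w g y s

/-- REW. Reweighting. Proof: let `u i = |⟨t, y i⟩| ≤ 1`. If `0 ≤ ⟨t, y i⟩` put `v i = y i`,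
`t' i = -g i`, else `v i = -y i`, `t' i = g i`. Then `⟨t, v i⟩ = u i`, `u i • t' i = -⟨t, y i⟩ • g i`,
`⟨t' i, v i⟩ = -⟨g i, y i⟩`, so `∑ w u t' = s t` and `2 - ε ≤ s - ∑ w ⟨t', v⟩`. As `-⟨t', v⟩ ≤ 1`,
`s ≥ 1 - ε > 0`. Let `m = ∑ w u ≤ 1`; a point `x` with `p x ≤ 1`, `⟨t, x⟩ = q t = 1` (`exP`) gives
`s = ∑ w u ⟨t', x⟩ ≤ m`. New weights `w u / m`, `e = 1 - s/m ≥ 0`, `k = 1 - m ≥ 0`. `e3`:
`∑ (w u/m)(1 - u) = 1 - (∑ w u^2)/m ≤ 1 - m` because `(∑ w u)^2 ≤ ∑ w u^2`. `bud`: with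
`E1 = ∑ (w u/m)(1 + ⟨t', v⟩) ≤ (1/m) ∑ w (1 + ⟨t', v⟩)` (each `1 + ⟨t', v⟩ ≥ 0`):
`k + m (E1 + e) ≤ 1 - m + ∑ w (1 + ⟨t', v⟩) + m - s = 2 + ∑ w ⟨t', v⟩ - s ≤ ε`. -/
def RewStmt : Prop :=
  ∀ (n N : ℕ) (p q : Seminorm ℝ (Eu n)) (ε : ℝ), IsDual p q → 0 < ε → ε < 1 → ∀ t, q t = 1 →
    ∀ (w : Fin N → ℝ) (g y : Fin N → Eu n) (s : ℝ), IsKer p q ε t w g y s →
    ∃ (t' v : Fin N → Eu n) (w' : Fin N → ℝ) (e k : ℝ), IsLaw p q ε t w' t' v e k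

/-- STA. Nearly stationary families. Proof: choose a law at every `t` with `q t = 1`. For a finitely
supported measure `m : Eu n →₀ ℝ` on `{q = 1}` let `T m = ∑_t m t ∑_i w_{t,i} δ_{t'_{t,i}}`.
`m_0 = δ_{t0}`, `m_{k+1} = T m_k`, `π = (1/L) ∑_{k<L} m_k` with `2/L ≤ d`; all are probability
measures on `{q = 1}` and `(T π)(f) - π(f) = (m_L(f) - m_0(f))/L`, of absolute value `≤ 2/L` if
`|f| ≤ 1` on `{q = 1}`. `s.A` = the support of `π` (subtype), `s.I = Fin M`, `M` = the maximum of the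
numbers `N_t` over the support plus one, the laws padded with weight `0`, `t' = t`, `v = 0`.
`pol` from `IsDual.le` for `x` and `-x` (`q x = 1`, `p v ≤ 1`). -/
def StaStmt : Prop :=
  ∀ (n : ℕ) (p q : Seminorm ℝ (Eu n)) (ε d : ℝ), IsDual p q → 0 < d →
    (∀ x, q x = 1 → ‖x‖ ≤ √n) → (∀ x, p x ≤ 1 → ‖x‖ ≤ 1) → (∃ t, q t = 1) →
    (∀ t, q t = 1 → ∃ (N : ℕ) (w : Fin N → ℝ) (t' v : Fin N → Eu n) (e k : ℝ),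
      IsLaw p q ε t w t' v e k) →
    ∃ s : Side n, s.Good {x | q x = 1} ε d ∧ ∀ a i, p (s.v a i) ≤ 1

/-- SWP. The dual pair, scaled. Proof: `P = √n • q`, `Q = (1/√n) • p` (scalars in `ℝ≥0`), direct
verification; `Bad` for `(f, z)` follows from `Bad` for `(z, f)` with the roles of `g`, `y`
exchanged and scaled by `√n`, `1/√n`. -/
def SwpStmt : Prop :=
  ∀ (n : ℕ) (p q : Seminorm ℝ (Eu n)) (ε : ℝ), 1 ≤ n → IsDual p q → Bad ε p q →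
    ∃ P Q : Seminorm ℝ (Eu n), (∀ x, P x = √n * q x) ∧ (∀ x, Q x = p x / √n) ∧
      IsDual P Q ∧ Bad ε P Q

/-- SID (uses HUL KER REW STA SWP). The two sides. Proof: `q f ≤ ‖f‖` and `‖f‖ ≤ √n * q f` from
`IsDual` and the two inequalities for `p` (`q f = ⟨f, v⟩ ≤ ‖f‖ ‖v‖ ≤ ‖f‖ p v`; `⟨f, f⟩ ≤ q f * p f
≤ q f √n ‖f‖`). Side `s`: STA for `p, q` (`S = {q = 1}`); side `r`: STA for `P, Q` of SWP
(`R = {Q = 1}`, so `p z = √n`). The hypotheses of KER hold with `c = 1/√n` resp. `1/n` or smaller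
(`P x = √n q x ≥ ‖x‖`, `Q x = p x/√n ≥ ‖x‖/√n`). Lengths: `q x = 1 → ‖x‖ ≤ √n`,
`p x ≤ 1 → ‖x‖ ≤ 1`; `Q x = 1 → p x = √n → ‖x‖ ≤ √n`; `P x ≤ 1 → ‖x‖ ≤ √n q x ≤ 1`. Cross: `IsDual.le`
for `±`: `|⟨x, z⟩| ≤ q x p z = √n`, `|⟨v, v'⟩| ≤ p v q v' ≤ 1/√n` (`√n q v' = P v' ≤ 1`). -/
def SidStmt : Prop :=
  ∀ (n : ℕ) (p q : Seminorm ℝ (Eu n)) (ε d : ℝ), 1 ≤ n → IsDual p q → (∀ v, ‖v‖ ≤ p v) →
    (∀ v, p v ≤ √n * ‖v‖) → 0 < ε → ε < 1 → Bad ε p q → 0 < d →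
    ∃ (s r : Side n) (S R : Set (Eu n)), s.Good S ε d ∧ r.Good R ε d ∧ Cross s r S R

/-- DUA. The dual seminorm. Proof: `q f` = the operator norm of the functional `x ↦ ⟨f, T⁻¹ x⟩` on
`X` (`LinearMap.toContinuousLinearMap`; `q = (normSeminorm _ _).comp _`). `le`: `⟨f, v⟩ =
(f ∘ T⁻¹)(T v) ≤ q f ‖T v‖`. `exP`: the operator norm is attained on the compact unit ball of `X`.
`exQ`: Hahn-Banach `exists_dual_vector''` for `T v`, and every functional on `X` is `⟨f, T⁻¹ ·⟩`. -/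
def DuaStmt : Prop :=
  ∀ (n : ℕ) (X : Type) [NormedAddCommGroup X] [NormedSpace ℝ X] [FiniteDimensional ℝ X]
    (T : Eu n ≃ₗ[ℝ] X), ∃ p q : Seminorm ℝ (Eu n), (∀ v, p v = ‖T v‖) ∧ IsDual p q

/-- JOI. The improvement step in John's theorem. Proof: `‖v‖ = 1`, `‖T v‖ = 1/τ`, `τ^2 > n`
(`T v ≠ 0`). `D w = b w + (a - b) ⟨v, w⟩ v` with `a^2 = τ^2/n`, `b^2 = (n-1) τ^2/(n (τ^2 - 1))` for
`n ≥ 2` (for `n = 1`: `D = a`, `a = τ`). Then `a ≥ b > 0` and `b^2 (1 - 1/τ^2) + a^2/τ^2 = 1`. For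
`‖f‖ ≤ 1` in the dual of `X` let `f ∘ T = ⟨u, ·⟩`: `‖u‖ ≤ 1` and `|⟨u, v⟩| ≤ 1/τ`, so
`‖D u‖^2 = b^2 ‖u‖^2 + (a^2 - b^2) ⟨u, v⟩^2 ≤ 1` and `f (T (D w)) = ⟨D u, w⟩ ≤ ‖w‖`. Hence
`‖T (D w)‖ ≤ ‖w‖`. `det D = a b^(n-1)` (matrix determinant lemma
`Matrix.det_one_add_replicateCol_mul_replicateRow` or an orthonormal basis through `v`) and
`a^2 b^(2(n-1)) > 1`: `n(τ²-1)/((n-1)τ²) = 1 + (τ²-n)/((n-1)τ²)`, so the inverse of `b^(2(n-1))` is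
`≤ exp(1 - n/τ²) < τ²/n`, because `1 - 1/x < log x` for `x = τ²/n > 1`. -/
def JoiStmt : Prop :=
  ∀ (n : ℕ) (X : Type) [NormedAddCommGroup X] [NormedSpace ℝ X] [FiniteDimensional ℝ X]
    (T : Eu n ≃ₗ[ℝ] X), 1 ≤ n → (∀ w, ‖T w‖ ≤ ‖w‖) → (∃ v, √n * ‖T v‖ < ‖v‖) →
    ∃ D : Eu n →ₗ[ℝ] Eu n, (∀ w, ‖T (D w)‖ ≤ ‖w‖) ∧ 1 < |LinearMap.det D|

/-- JOH (uses JOI). John's theorem `d(X, ℓ₂ⁿ) ≤ √n`. Proof: fix a linear equivalence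
`B : Eu n ≃ X`. The set of the linear maps `M : Eu n → Eu n` with `‖B (M w)‖ ≤ ‖w‖` for all `w` is
compact (closed and bounded in the finite dimensional space of continuous linear maps), contains
small multiples of the identity, and `|det M|` is continuous: take a maximum point `M`, `det M ≠ 0`,
`T = B ∘ M`. If `√n ‖T v‖ < ‖v‖` for some `v`, JOI gives `M ∘ D` with larger `|det|`. So
`‖v‖ ≤ √n ‖T v‖` and `‖T v‖ ≤ ‖v‖` for all `v`; take `√n • T`. -/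
def JohStmt : Prop :=
  ∀ (n : ℕ) (X : Type) [NormedAddCommGroup X] [NormedSpace ℝ X] [FiniteDimensional ℝ X],
    1 ≤ n → Module.finrank ℝ X = n → ∃ T : Eu n ≃ₗ[ℝ] X, ∀ v, ‖v‖ ≤ ‖T v‖ ∧ ‖T v‖ ≤ √n * ‖v‖

/-- TRN (uses DUA JOH). Proof: `lt_iSup_iff` gives `X` with `ofReal (2-ε) < minHyperplane X`. JOH, DUA
give `T, p, q`. For `⟨f, z⟩ = 1` the continuous linear map `P x = x - ⟨f, T⁻¹ x⟩ • T z` is a projection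
onto `Y = ker ⟨f, T⁻¹ ·⟩`, `finrank Y + 1 = finrank X` (`f ≠ 0`), so `ofReal (2-ε) < ofReal ‖P‖` and
`2 - ε < ‖P‖`. There is `x` with `‖x‖ ≤ 1`, `2 - ε < ‖P x‖`; `y = T⁻¹ x`, and `g` from `exQ` at
`T⁻¹ (P x) = y - ⟨f, y⟩ z`. -/
def TrnStmt : Prop :=
  ∀ (n : ℕ) (ε : ℝ), 1 ≤ n → 0 < ε → ε < 1 →
    ENNReal.ofReal (2 - ε) < Pool.Agent.Helper18_Proj.rho n →
    ∃ p q : Seminorm ℝ (Eu n), IsDual p q ∧ (∀ v, ‖v‖ ≤ p v) ∧ (∀ v, p v ≤ √n * ‖v‖) ∧ Bad ε p q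

/-! ## Part 2: one side -/

/-- TIG. Tightness. Notation `a = η^4 ≤ 10^(-4)`, `E1 a = ∑ w (1 + ⟨t', v⟩) ≥ 0` (`pol`),
`E = s.ex`, `Ek = ∑ μ k` etc. Proof. (i) `bud`: `k ≤ ε < 1` and
`E1 + e ≤ (ε-k)/(1-k) ≤ ε - (1-ε)k - (1-ε)k^2`; in particular `e ≤ ε`. (ii) for each state
`∑ w ‖t'-t‖² = ∑ w ‖t'‖² - ‖t‖² + 2 e ‖t‖²` (from `mean`), `‖t‖² ≤ n`, and `stat` for
`f x = ‖x‖²/n`: `E ‖t'-t‖² ≤ d n + 2 n E e`. (iii) `‖t'-t‖ ≥ |⟨t-t', v⟩|`, and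
`∑ w ⟨t-t', v⟩² ≥ (∑ w ⟨t-t', v⟩)² = (2 - e3 - E1)² ≥ 4 - 4(k + E1)`. (iv) So
`(2n-8-2a) Ek + (2n-4-2a) E k² + (2n-4) E E1 ≤ 2a + dn`, with `k ≤ ε ≤ 0.6`:
`(2n-8) Ek + (2n-4-2a) E k² + (2n-4) E E1 ≤ 4a`. For `n ≥ 5`: `Ek ≤ 2a/(n-4) ≤ 10a/n`; for `n = 4`:
`(Ek)² ≤ E k² ≤ 1.1 a`; always `Ek ≤ 10 η²/n`, `E E1 ≤ 2a/(n-2) ≤ 4 η²/n`. (v) `E ‖V‖² =
E ‖t'-t‖²/4 ≤ (dn + 2nε)/4 ≤ 1 + η²`; `E ⟨V, v⟩ = 1 - (E e3 + E E1)/2 ≥ 1 - 7η²/n`;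
`E ‖V-v‖² = E ‖V‖² - 2 E ⟨V, v⟩ + E ‖v‖² ≤ 15 η²`, and `E ‖v‖² ≥ 2 E ⟨V, v⟩ - E ‖V‖²`. -/
def TigStmt : Prop :=
  ∀ (n : ℕ) (s : Side n) (S : Set (Eu n)) (η d : ℝ), 4 ≤ n → 0 < η → η ≤ 1 / 10 → 0 ≤ d →
    d ≤ η ^ 4 / (n : ℝ) ^ 3 → s.Good S ((2 + η ^ 4) / n) d →
    (∀ a, s.e a ≤ (2 + η ^ 4) / n) ∧
    ∑ a, s.μ a * s.k a ≤ 10 * η ^ 2 / n ∧
    s.ex (fun a i => ‖s.V a i‖ ^ 2) ≤ 1 + η ^ 2 ∧
    s.ex (fun a i => ‖s.V a i - s.v a i‖ ^ 2) ≤ 15 * η ^ 2 ∧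
    1 - 15 * η ^ 2 ≤ s.ex (fun a i => ‖s.v a i‖ ^ 2)

/-- IND. Independent children. Proof: `x = ⟨V i, v j⟩ = (1 - δ - ⟨t' i, v j⟩)/2` with
`δ = 1 - ⟨t, v j⟩ ∈ [0, 2]` and `|⟨t' i, v j⟩| ≤ 1`, so `-δ/2 ≤ x ≤ 1` and `x² ≤ x + δ` (two cases).
Sum with weights: `∑∑ w w x = ⟨∑ w V, ∑ w v⟩ = (e/2) ⟨t, ∑ w v⟩ ≤ e/2`, `∑ w δ ≤ k`. -/
def IndStmt : Prop :=
  ∀ (n : ℕ) (s : Side n) (S : Set (Eu n)) (ε d : ℝ), s.Good S ε d → ∀ a,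
    ∑ i, s.w a i * ∑ j, s.w a j * inner ℝ (s.V a i) (s.v a j) ^ 2 ≤ s.e a / 2 + s.k a

/-- TRU. Spectral truncation. Proof: `C x = ∑ w ⟨v, x⟩ v` is symmetric and positive; let `b l`,
`c l ≥ 0` be an orthonormal eigenbasis (`LinearMap.IsSymmetric.eigenvectorBasis`) and
`R x = ∑_{c l ≤ L} ⟨b l, x⟩ b l`, `M x = ∑_{c l ≤ L} c l ⟨b l, x⟩ b l = C (R x) = R (C x)`.
(al) is `⟨C R x, R x⟩ ≤ L ‖x‖²`; (be) from `C R = R C R`. `T = ∑ w_i ⟨C V_i, V_i⟩`.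
First bound: `∑ w ‖v - Rv‖² ≤ ∑ w ‖V - RV‖² + G` (`|‖u‖²-‖u'‖²| ≤ ‖u-u'‖(‖u‖+‖u'‖)`) and
`L ‖V-RV‖² ≤ ⟨C V, V⟩`. Second bound: the left side is `∑ w_j ⟨M v_j, v_j⟩`, `0 ≤ M ≤ L`,
`|⟨Mv,v⟩ - ⟨MV,V⟩| ≤ L ‖v-V‖(‖v‖+‖V‖)`, `⟨MV,V⟩ ≤ ⟨CV,V⟩`. -/
def TruStmt : Prop :=
  ∀ (n : ℕ) (I : Type) [Fintype I] (w : I → ℝ) (V v : I → Eu n) (L : ℝ), 0 < L →
    (∀ i, 0 ≤ w i) →
    ∃ R : Eu n →ₗ[ℝ] Eu n,
      (∀ x, ∑ i, w i * inner ℝ (R (v i)) x ^ 2 ≤ L * ‖x‖ ^ 2) ∧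
      (∀ x y, ∑ i, w i * (inner ℝ (v i) x * inner ℝ (R (v i)) y) =
        ∑ i, w i * (inner ℝ (R (v i)) x * inner ℝ (R (v i)) y)) ∧
      (∑ i, w i * ‖v i‖ ^ 2 - (∑ i, w i * ∑ j, w j * inner ℝ (V i) (v j) ^ 2) / L
        - ∑ i, w i * (‖V i - v i‖ * (‖V i‖ + ‖v i‖)) ≤ ∑ i, w i * ‖R (v i)‖ ^ 2) ∧
      (∑ i, w i * ∑ j, w j * inner ℝ (R (v i)) (R (v j)) ^ 2 ≤
        ∑ i, w i * ∑ j, w j * inner ℝ (V i) (v j) ^ 2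
          + L * ∑ i, w i * (‖V i - v i‖ * (‖V i‖ + ‖v i‖)))

/-- AVG (uses TIG IND TRU). Proof: TRU at every state with `L = K/n`. Averages: `E T ≤ ε/2 + Ek ≤
(1 + 15η²)/n`, so `E T/L ≤ (1+15η²)/K ≤ 2/K`; `E G ≤ √(15η²) √(E (‖V‖+‖v‖)²) ≤ 9η`
(`(‖V‖+‖v‖)² ≤ 2‖V‖² + 2`). -/
def AvgStmt : Prop :=
  ∀ (n : ℕ) (s : Side n) (S : Set (Eu n)) (η d K : ℝ), 4 ≤ n → 0 < η → η ≤ 1 / 10 → 0 ≤ d →
    d ≤ η ^ 4 / (n : ℝ) ^ 3 → s.Good S ((2 + η ^ 4) / n) d → 1 ≤ K →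
    ∃ R : s.A → Eu n →ₗ[ℝ] Eu n, Trunc s R (K / n) ∧
      1 - (2 / K + 24 * η) ≤ s.ex (fun a i => ‖R a (s.v a i)‖ ^ 2) ∧
      (n : ℝ) * ∑ a, s.μ a * ∑ i, s.w a i * ∑ j, s.w a j *
        inner ℝ (R a (s.v a i)) (R a (s.v a j)) ^ 2 ≤ 1 + (15 * η ^ 2 + 9 * K * η)

/-! ## Part 3: two sides -/

/-- PAI. Proof: with coordinates `x_kl = E (R v)_k (R v)_l`, `z_kl = E (Q v')_k (Q v')_l`:
`ex2 ⟨Rv, Qv'⟩² = ∑ x_kl z_kl`, `∑_k x_kk ≥ 1 - σ`, and by Jensen (convexity of the square, average over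
the states of the matrices `∑_i w (Rv)_k (Rv)_l`) `∑ x_kl² ≤ (1+ρ)/n`; the same for `z`. Then
`n ∑ (x - 1/n)² ≤ ρ + 2σ` (`1/n` = the scalar matrix), and
`n ∑ x z = n ∑ (x-1/n)(z-1/n) + tr x + tr z - 1 ≥ -(ρ+2σ) + 1 - 2σ`. -/
def PaiStmt : Prop :=
  ∀ (n : ℕ) (s r : Side n) (R : s.A → Eu n →ₗ[ℝ] Eu n) (Q : r.A → Eu n →ₗ[ℝ] Eu n) (σ ρ : ℝ),
    1 ≤ n → s.Wt → r.Wt → 0 ≤ σ → 0 ≤ ρ →
    1 - σ ≤ s.ex (fun a i => ‖R a (s.v a i)‖ ^ 2) →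
    1 - σ ≤ r.ex (fun a i => ‖Q a (r.v a i)‖ ^ 2) →
    (n : ℝ) * ∑ a, s.μ a * ∑ i, s.w a i * ∑ j, s.w a j *
      inner ℝ (R a (s.v a i)) (R a (s.v a j)) ^ 2 ≤ 1 + ρ →
    (n : ℝ) * ∑ a, r.μ a * ∑ i, r.w a i * ∑ j, r.w a j *
      inner ℝ (Q a (r.v a i)) (Q a (r.v a j)) ^ 2 ≤ 1 + ρ →
    1 - (ρ + 4 * σ) ≤ ex2 s r (fun a i b j => A1 s r R Q a i b j ^ 2)

/-- PRJ. Proof: `ex2 (A A1) = ex2 (A1²)` by (be) on both sides: for fixed `a, b, j` use (be) of `s`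
with `x = v' b j`, `y = Q (v' b j)`; then for fixed `a, i, b` (be) of `r` with `x = y = R (v a i)`
(symmetry of the scalar product; Fubini `ex2_comm`). `|A| ≤ 1` from `Cross.pt`. Hence
`ex2 (A-A1)² = ex2 A² - ex2 A1² ≤ 1 - ex2 A1²`. -/
def PrjStmt : Prop :=
  ∀ (n : ℕ) (s r : Side n) (S S' : Set (Eu n)) (R : s.A → Eu n →ₗ[ℝ] Eu n)
    (Q : r.A → Eu n →ₗ[ℝ] Eu n) (L L' : ℝ), 1 ≤ n → s.Wt → r.Wt → Cross s r S S' →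
    Trunc s R L → Trunc r Q L' →
    ex2 s r (fun a i b j => A1 s r R Q a i b j * AA s r a i b j) =
      ex2 s r (fun a i b j => A1 s r R Q a i b j ^ 2) ∧
    ex2 s r (fun a i b j => (AA s r a i b j - A1 s r R Q a i b j) ^ 2) ≤
      1 - ex2 s r (fun a i b j => A1 s r R Q a i b j ^ 2)

/-- NUC. Proof. `√n(⟨v, v'⟩ - ⟨V, V'⟩) = √n ⟨v-V, v'⟩ + √n ⟨V, v'-V'⟩`. For fixed states `a, b`, any
`x_i, y_j` in `Eu n`: `∑∑ w w' A1 √n ⟨x_i, y_j⟩ = n ∑_l ⟨∑_i w (x_i)_l R v_i, ∑_j w' (y_j)_l Q v'_j⟩`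
and `‖∑_i w f_i R v_i‖² ≤ L ∑ w f_i²` (pair the vector with itself, Cauchy-Schwarz, (al)), so the sum
is `≤ n L √(∑ w ‖x_i‖²) √(∑ w' ‖y_j‖²)` (Cauchy-Schwarz over `l`). With `L = K/n`, `‖v'‖ ≤ 1`, then
average over `a`, `b` (Jensen for the square root). -/
def NucStmt : Prop :=
  ∀ (n : ℕ) (s r : Side n) (R : s.A → Eu n →ₗ[ℝ] Eu n) (Q : r.A → Eu n →ₗ[ℝ] Eu n) (K : ℝ),
    1 ≤ n → s.Wt → r.Wt → 0 ≤ K → (∀ b j, ‖r.v b j‖ ≤ 1) → Trunc s R (K / n) →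
    Trunc r Q (K / n) →
    |ex2 s r (fun a i b j => A1 s r R Q a i b j * (AA s r a i b j - BB s r a i b j))| ≤
      K * (√(s.ex fun a i => ‖s.V a i - s.v a i‖ ^ 2) +
        √(s.ex fun a i => ‖s.V a i‖ ^ 2) * √(r.ex fun b j => ‖r.V b j - r.v b j‖ ^ 2))

/-- SEC. Second moments. Proof. For fixed `a, i`: `f z = ⟨V, z⟩²/n` is bounded by `1` on `R`
(`|⟨V, z⟩| ≤ √n` by `Cross.st`), and `∑ w' ⟨V, z'⟩² - ⟨V, z⟩² = ∑ w' ⟨V, z'-z⟩² - 2 e' ⟨V, z⟩²` by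
`mean`; `z - z' = 2 V'`: `stat` of `r` gives (i) `(4/n²) ex2 B² ≤ 2 ε ex2 X² + d`. The same for fixed
`b` with `f t = ⟨t, z⟩²/n`: (ii) `4 ex2 X² ≤ 2 ε ex2 y² + d ≤ 2ε + d`. With `ε = (2+η⁴)/n`,
`d ≤ η⁴/n³`: `ex2 X² ≤ (1+η)/n`, `ex2 B² ≤ 1 + 2η`; and from (i), (ii)
`ex2 y² ≥ (4 ex2 B² - 2 d n²)/(2+η⁴)² ≥ 1 - σ - 2η`. (`e ≤ ε` is a consequence of `bud`, `pol`.) -/
def SecStmt : Prop :=
  ∀ (n : ℕ) (s r : Side n) (S R : Set (Eu n)) (η d σ : ℝ), 4 ≤ n → 0 < η → η ≤ 1 / 10 →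
    0 ≤ d → d ≤ η ^ 4 / (n : ℝ) ^ 3 → s.Good S ((2 + η ^ 4) / n) d → r.Good R ((2 + η ^ 4) / n) d →
    Cross s r S R → 0 ≤ σ → σ ≤ 1 →
    ex2 s r (fun a i b _ => XX s r a i b ^ 2) ≤ (1 + η) / n ∧
    ex2 s r (fun a i b j => BB s r a i b j ^ 2) ≤ 1 + 2 * η ∧
    (1 - σ ≤ ex2 s r (fun a i b j => BB s r a i b j ^ 2) →
      1 - (σ + 2 * η) ≤ ex2 s r (fun a _ b _ => yy s r a b ^ 2))

/-- HCV (uses SEC). Proof. `r0 = u²`, `H y = (max (|y|-1+r0) 0)²` on `[-1,1]`, `H' y = 2 max(|y|-1+r0) 0 sgn y`,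
`0 ≤ H ≤ r0² ≤ 1`, `0 ≤ y H' y ≤ 2 r0`. `w = y' - y = -2X`, `y' = ⟨t', z⟩/√n`. Remainder
`H y' - H y - H' y w ≥ 0` (convex), and for `|y| ≥ 1 - r0/2` it is `≥ min (w²) (r0/2 |w|)`. `stat` for
`f t = H (⟨t, z⟩/√n)` and `∑ w_i w = -e y`: `E[min; |y| ≥ 1-r0/2] ≤ d + 2 ε r0 ≤ 5 r0/n`
(`d ≤ η⁴/n³ ≤ 0.9 u²/n`). `|w| ≤ √min + (2/r0) min`, so this part of `E|w|` is
`≤ √(5 r0/n) + 10/n`. Other part: probability `≤ 2 u⁴/r0 = 2u²` (`1-y² ≥ 1-|y|`), `E w² = 4 E X² ≤ 5/n`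
(SEC): `≤ √(10 u²/n)`. Sum: `E |X| ≤ (√5 + √10) u/(2√n) + 5/n ≤ 3u/√n + 5/n`. -/
def HcvStmt : Prop :=
  ∀ (n : ℕ) (s r : Side n) (S R : Set (Eu n)) (η d u : ℝ), 4 ≤ n → 0 < η → η ≤ 1 / 10 →
    0 ≤ d → d ≤ η ^ 4 / (n : ℝ) ^ 3 → s.Good S ((2 + η ^ 4) / n) d → r.Good R ((2 + η ^ 4) / n) d →
    Cross s r S R → η ≤ u → u ≤ 1 →
    1 - u ^ 4 ≤ ex2 s r (fun a _ b _ => yy s r a b ^ 2) →
    ex2 s r (fun a i b _ => |XX s r a i b|) ≤ 3 * u / √n + 5 / n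

/-- HUB (uses SEC). Proof. `l = 1/√n`, `h x = x²/(2l)` for `|x| ≤ l`, `|x| - l/2` beyond (so
`0 ≤ h ≤ 1` on `[-1,1]`), `h' x = max(-1) (min 1 (x/l))`. `X = ⟨V, z⟩/√n`, `X' = ⟨V, z'⟩/√n`,
`b = X' - X = -(2/n) B`. Remainder `h X' - h X - h' X b ≥ 0`, and `≥ min (b²/(2l)) (|b|/4)` if
`|X| ≤ l/2`. `stat` of `r` for `f z = h (⟨V, z⟩/√n)`: `E[min; |X| ≤ l/2] ≤ d + ε E|X|`. Times
`n^(3/2)`: `m = min (2B²) (√n |B|/2)`, `E[m; |X| ≤ l/2] ≤ n^(3/2) d + (2+η⁴)√n E|X| ≤ 0.01`.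
`|B| ≤ √(m/2) + 2m/√n`: this part of `E|B|` is `≤ 0.08`. `P(|X| > l/2) ≤ 2√n E|X| ≤ 0.01`,
`E B² ≤ 1.2` (SEC): the other part is `≤ √0.012 ≤ 0.11`. -/
def HubStmt : Prop :=
  ∀ (n : ℕ) (s r : Side n) (S R : Set (Eu n)) (η d : ℝ), 10 ^ 7 ≤ n → 0 < η → η ≤ 1 / 1000 →
    0 ≤ d → d ≤ η ^ 4 / (n : ℝ) ^ 3 → s.Good S ((2 + η ^ 4) / n) d → r.Good R ((2 + η ^ 4) / n) d →
    Cross s r S R →
    ex2 s r (fun a i b _ => |XX s r a i b|) ≤ 3 * (1 / 1000) / √n + 5 / n →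
    ex2 s r (fun a i b j => |BB s r a i b j|) ≤ 3 / 4

/-- SML (uses SEC). Proof. `r0 = 1/(8n)`. `E(1 - y²) ≤ 10^(-12)` for the pair of states `(t, z)`, and by
`stat` (of `s` for `f t = 1 - ⟨t,z⟩²/n`, of `r` for `f z = 1 - ⟨t,z⟩²/n`) `≤ 10^(-12) + 2d` for
`(t', z)`, `(t, z')`, `(t', z')`. So outside an event of probability `≤ (4·10^(-12) + 4d)/r0` all
four numbers are `≥ 1 - r0` in absolute value (`1-y² ≥ 1-|y|`). `X' - X = ((y(t,z')-y(t',z')) -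
(y(t,z)-y(t',z)))/2 = -(2/n)B` is then within `2 r0` (each number is within `r0` of `±1`) of an
integer, so `|B| ≤ n r0 = 1/8` or `|B| ≥ (n/2)(1 - 2 r0) ≥ 15/8`. Hence
`E|B| ≤ 1/8 + (8/15) E B² + √((4·10^(-12)+4d) 8n E B²) ≤ 0.125 + 0.54 + 0.02`. -/
def SmlStmt : Prop :=
  ∀ (n : ℕ) (s r : Side n) (S R : Set (Eu n)) (η d : ℝ), 4 ≤ n → n ≤ 10 ^ 7 → 0 < η →
    η ≤ 1 / 10 ^ 6 → 0 ≤ d → d ≤ η ^ 4 / (n : ℝ) ^ 3 → s.Good S ((2 + η ^ 4) / n) d →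
    r.Good R ((2 + η ^ 4) / n) d → Cross s r S R →
    1 - 1 / 10 ^ 12 ≤ ex2 s r (fun a _ b _ => yy s r a b ^ 2) →
    ex2 s r (fun a i b j => |BB s r a i b j|) ≤ 3 / 4

/-- FIN (uses TIG AVG PAI PRJ NUC SEC HCV HUB SML). Proof. `η = 10^(-30)`, `K = 10^14`. AVG for both
sides; PAI with `σ = 2/K + 24η`, `ρ = 15η² + 9Kη`: `x = ex2 A1² ≥ 1 - s2`,
`s2 = 15η² + 9Kη + 8/K + 96η ≤ 8.2·10^(-14)`. PRJ: `ex2 (A1 A) = x ≤ 1`, `ex2 (A-A1)² ≤ s2`. NUC with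
TIG: `|ex2 A1 (A-B)| ≤ K (√15 η + √(1+η²) √15 η) ≤ 8Kη`. So `ex2 (A1 B) ≥ 1 - s3`,
`s3 = s2 + 8Kη ≤ 8.3·10^(-14)`, and `ex2 B² ≥ (ex2 A1 B)² ≥ 1 - 2 s3` (Cauchy-Schwarz, `x ≤ 1`). SEC
with `σ = 2 s3`: `ex2 y² ≥ 1 - 10^(-12)`, `ex2 B² ≤ 1 + 2η`. If `n ≤ 10^7`: SML; if `n ≥ 10^7`: HCV
with `u = 1/1000`, then HUB. So `ex2 |B| ≤ 3/4`. Finally
`1 - s3 ≤ ex2 (A1 B) = ex2 (A B) - ex2 ((A-A1) B) ≤ ex2 |B| + √s2 √(1+2η) ≤ 3/4 + 10^(-6)` (`|A| ≤ 1`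
by `Cross.pt`), a contradiction. -/
def FinStmt : Prop :=
  ∀ (n : ℕ) (s r : Side n) (S R : Set (Eu n)) (d : ℝ), 4 ≤ n → 0 ≤ d →
    d ≤ ((1 / 10 ^ 30 : ℝ)) ^ 4 / (n : ℝ) ^ 3 →
    s.Good S ((2 + (1 / 10 ^ 30 : ℝ) ^ 4) / n) d → r.Good R ((2 + (1 / 10 ^ 30 : ℝ) ^ 4) / n) d →
    Cross s r S R → False

/-- MAI (uses TRN SID FIN). Proof: if not, TRN with `ε = (2 + 10^(-120))/n`, SID with
`d = 10^(-120)/n³`, then FIN. -/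
def MaiStmt : Prop :=
  ∀ n : ℕ, 4 ≤ n →
    Pool.Agent.Helper18_Proj.rho n ≤ ENNReal.ofReal (2 - (2 + 1 / 10 ^ 120) / n)

end Pool.Agent.PJC
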